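import Mathlib
import Pool.Agent.TH855.Blow
import Pool.Agent.TH855.CBounds

set_option autoImplicit false

/-!
# Homomorphic preimages of a `2`-connected graph
-/

namespace Pool.Agent.Q248.CH

open Pool.Agent.TH855 Pool.Agent.Helper311.Glue Classical
open scoped ENNReal

/-- all graphs obtained by deleting one vertex are connected -/
def TwoConn {U : Type} (H : SimpleGraph U) : Prop := ∀ x : U, (H.induce {z | z ≠ x}).Connected

section Conn

variable {T U : Type} (H : SimpleGraph U) (π : T → U) (σ : U → T)

/-- every vertex has a neighbour different from `u` -/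
theorem exists_nbr [Fintype U] (h2 : TwoConn H) (hU : 3 ≤ Fintype.card U) (a u : U) :
    ∃ v, H.Adj a v ∧ v ≠ u := by
  -- a vertex `x ∉ {a, u}`
  by_cases hau : a = u
  · subst hau
    -- connected graph H - x, x ≠ a, has another vertex
    obtain ⟨x, hx⟩ : ∃ x : U, x ≠ a := by
      by_contra hcon
      push Not at hcon
      have : Fintype.card U ≤ 1 := Fintype.card_le_one_iff.2 (fun p q => (hcon p).trans (hcon q).symm)
      omega
    have hcard : ∃ y : U, y ≠ a ∧ y ≠ x := by
      by_contra hcon
      push Not at hcon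
      have : (Finset.univ : Finset U) ⊆ {a, x} := by
        intro y _
        by_cases hy : y = a
        · simp [hy]
        · simp [hcon y hy]
      have h1 := Finset.card_le_card this
      rw [Finset.card_univ] at h1
      have h2' : ({a, x} : Finset U).card ≤ 2 := Finset.card_le_two
      omega
    obtain ⟨y, hya, hyx⟩ := hcard
    have hc := h2 x
    obtain ⟨w⟩ := hc.preconnected ⟨a, hx.symm⟩ ⟨y, hyx⟩
    cases w with
    | nil => exact absurd rfl hya
    | cons h p =>
      rename_i v
      exact ⟨v.1, h, fun h' => H.loopless.irrefl a (h' ▸ h)⟩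
  · obtain ⟨y, hya, hyu⟩ : ∃ y : U, y ≠ a ∧ y ≠ u := by
      by_contra hcon
      push Not at hcon
      have : (Finset.univ : Finset U) ⊆ {a, u} := by
        intro y _
        by_cases hy : y = a
        · simp [hy]
        · simp [hcon y hy]
      have h1 := Finset.card_le_card this
      rw [Finset.card_univ] at h1
      have h2' : ({a, u} : Finset U).card ≤ 2 := Finset.card_le_two
      omega
    obtain ⟨w⟩ := (h2 u).preconnected ⟨a, hau⟩ ⟨y, hyu⟩
    cases w with
    | nil => exact absurd rfl hya
    | cons h p =>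
      rename_i v
      exact ⟨v.1, h, v.2⟩

theorem conn_of_two [Fintype U] (h2 : TwoConn H) (hU : 3 ≤ Fintype.card U) : H.Connected := by
  haveI : Nonempty U := Fintype.card_pos_iff.1 (by omega)
  refine ⟨fun a b => ?_⟩
  by_cases hab : a = b
  · subst hab; exact SimpleGraph.Reachable.refl _
  obtain ⟨x, hxa, hxb⟩ : ∃ y : U, y ≠ a ∧ y ≠ b := by
    by_contra hcon
    push Not at hcon
    have : (Finset.univ : Finset U) ⊆ {a, b} := by
      intro y _
      by_cases hy : y = a
      · simp [hy]
      · simp [hcon y hy]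
    have h1 := Finset.card_le_card this
    rw [Finset.card_univ] at h1
    have h2' : ({a, b} : Finset U).card ≤ 2 := Finset.card_le_two
    omega
  have h := (h2 x).preconnected ⟨a, hxa.symm⟩ ⟨b, hxb.symm⟩
  exact h.map (SimpleGraph.Embedding.induce {z | z ≠ x}).toHom

variable (hσ : ∀ u, π (σ u) = u)
include hσ

theorem comap_conn [Fintype U] (h2 : TwoConn H) (hU : 3 ≤ Fintype.card U) :
    (H.comap π).Connected := by
  have hH := conn_of_two H h2 hU
  haveI : Nonempty U := Fintype.card_pos_iff.1 (by omega)
  haveI : Nonempty T := ⟨σ (Classical.arbitrary U)⟩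
  have key : ∀ z : T, ∀ u : U, (H.comap π).Reachable z (σ u) := by
    intro z u
    obtain ⟨v, hv, -⟩ := exists_nbr H h2 hU (π z) u
    have h1 : (H.comap π).Adj z (σ v) := by
      show H.Adj (π z) (π (σ v)); rw [hσ]; exact hv
    have h3 : (H.comap π).Reachable (σ v) (σ u) := by
      have hr := hH.preconnected v u
      exact hr.map (⟨σ, fun {a b} hab => by show H.Adj (π (σ a)) (π (σ b)); rwa [hσ, hσ]⟩ :
        H →g H.comap π)
    exact h1.reachable.trans h3
  refine ⟨fun a b => ?_⟩
  exact (key a (Classical.arbitrary U)).trans (key b (Classical.arbitrary U)).symm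

theorem rim_conn [Fintype U] (h2 : TwoConn H) (hU : 3 ≤ Fintype.card U) (u : U) :
    ((H.comap π).induce {z | z ≠ σ u}).Connected := by
  obtain ⟨x0, hx0⟩ : ∃ x : U, x ≠ u := by
    by_contra hcon
    push Not at hcon
    have : Fintype.card U ≤ 1 := Fintype.card_le_one_iff.2 (fun p q => (hcon p).trans (hcon q).symm)
    omega
  have hinj : ∀ a b, σ a = σ b → a = b := fun a b h => by rw [← hσ a, ← hσ b, h]
  have hne : ∀ v, v ≠ u → σ v ≠ σ u := fun v hv h => hv (hinj _ _ h)
  haveI : Nonempty {z : T | z ≠ σ u} := ⟨⟨σ x0, hne x0 hx0⟩⟩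
  have key : ∀ z : {z : T | z ≠ σ u},
      ((H.comap π).induce {z | z ≠ σ u}).Reachable z ⟨σ x0, hne x0 hx0⟩ := by
    rintro ⟨z, hz⟩
    obtain ⟨v, hv, hvu⟩ := exists_nbr H h2 hU (π z) u
    have h1 : ((H.comap π).induce {z | z ≠ σ u}).Adj ⟨z, hz⟩ ⟨σ v, hne v hvu⟩ := by
      show H.Adj (π z) (π (σ v)); rw [hσ]; exact hv
    have h3 : ((H.comap π).induce {z | z ≠ σ u}).Reachable ⟨σ v, hne v hvu⟩ ⟨σ x0, hne x0 hx0⟩ := by
      have hr := (h2 u).preconnected ⟨v, hvu⟩ ⟨x0, hx0⟩
      exact hr.map (⟨fun a => ⟨σ a.1, hne a.1 a.2⟩, fun {a b} hab => by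
        show H.Adj (π (σ a.1)) (π (σ b.1)); rw [hσ, hσ]; exact hab⟩ :
        H.induce {z | z ≠ u} →g (H.comap π).induce {z | z ≠ σ u})
    exact h1.reachable.trans h3
  exact ⟨fun a b => (key a).trans (key b).symm⟩

end Conn

/-- blowing up the vertices of `S` -/
theorem step {U W : Type} [Fintype U] [Fintype W] (H : SimpleGraph U) (h2 : TwoConn H)
    (hU : 3 ≤ Fintype.card U) (f : W → U) {a : ℝ} (ha : 0 ≤ a) (h : UpTo H a) (S : Finset U) :
    ∃ (T : Type) (_ : Fintype T) (π : T → U) (σ : U → T) (g : W → T),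
      (∀ u, π (σ u) = u) ∧ (∀ w, f w ∈ S → π (g w) = f w) ∧
      (∀ w w', f w ∈ S → f w' ∈ S → g w = g w' → w = w') ∧
      Fintype.card T = Fintype.card U + (Finset.univ.filter (fun w => f w ∈ S)).card ∧
      UpTo (H.comap π) ((((Fintype.card U + Fintype.card W : ℕ) : ℝ)) ^ S.card * a) := by
  induction S using Finset.induction_on with
  | empty =>
    haveI : Nonempty U := Fintype.card_pos_iff.1 (by omega)
    refine ⟨U, inferInstance, id, id, fun _ => Classical.arbitrary U, fun _ => rfl, ?_, ?_, ?_, ?_⟩
    · intro w hw; simp at hw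
    · intro w w' hw; simp at hw
    · simp
    · have h1 : H.comap id = H := by ext a b; rfl
      rw [h1]; simpa using h
  | insert u S hu ih =>
    obtain ⟨T, instT, π, σ, g, hσ, hg, hinj, hcard, hup⟩ := ih
    set t : ℕ := Fintype.card {w : W // f w = u} with ht
    have e : {w : W // f w = u} ≃ Fin t := Fintype.equivFin _
    have hTcard : 1 ≤ Fintype.card T - 1 := by omega
    have hb0 : 0 ≤ (((Fintype.card U + Fintype.card W : ℕ) : ℝ)) ^ S.card * a := by positivity
    have hblow := upTo_blow (H.comap π) (comap_conn H π σ hσ h2 hU) (Fintype.card T - 1) hTcard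
      (by omega) (σ u) (rim_conn H π σ hσ h2 hU u) t hb0 hup
    have hT : blow (H.comap π) (σ u) t = H.comap (Sum.elim π (fun _ : Fin t => u)) := by
      ext a b
      unfold blow
      rcases a with a | a <;> rcases b with b | b <;> simp [hσ]
    have hcT : Fintype.card T - 1 ≤ Fintype.card U + Fintype.card W := by
      have : (Finset.univ.filter (fun w => f w ∈ S)).card ≤ Fintype.card W := Finset.card_le_univ _
      omega
    refine ⟨T ⊕ Fin t, inferInstance, Sum.elim π (fun _ => u), Sum.inl ∘ σ,
      fun w => if hw : f w = u then Sum.inr (e ⟨w, hw⟩) else Sum.inl (g w), ?_, ?_, ?_, ?_, ?_⟩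
    · intro v; simp [hσ]
    · intro w hw
      rcases Finset.mem_insert.1 hw with hw | hw
      · simp [hw]
      · have hne : f w ≠ u := fun h' => hu (h' ▸ hw)
        simp [hne, hg w hw]
    · intro w w' hw hw' hww
      beta_reduce at hww
      by_cases h1 : f w = u
      · by_cases h1' : f w' = u
        · simp only [h1, h1', dif_pos] at hww
          have h4 := e.injective (Sum.inr_injective hww)
          exact congrArg Subtype.val h4
        · rw [dif_pos h1, dif_neg h1'] at hww
          exact absurd hww (by simp)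
      · by_cases h1' : f w' = u
        · rw [dif_neg h1, dif_pos h1'] at hww
          exact absurd hww (by simp)
        · rw [dif_neg h1, dif_neg h1'] at hww
          have hm : f w ∈ S := (Finset.mem_insert.1 hw).resolve_left h1
          have hm' : f w' ∈ S := (Finset.mem_insert.1 hw').resolve_left h1'
          exact hinj w w' hm hm' (Sum.inl_injective hww)
    · rw [Fintype.card_sum, Fintype.card_fin, hcard, add_assoc]
      congr 1
      have h5 : (Finset.univ.filter (fun w => f w ∈ insert u S)) =
          (Finset.univ.filter (fun w => f w ∈ S)) ∪ (Finset.univ.filter (fun w => f w = u)) := by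
        ext w; simp [or_comm]
      rw [h5, Finset.card_union_of_disjoint, ht, Fintype.card_subtype]
      rw [Finset.disjoint_filter]
      intro w _ h6 h7
      exact hu (h7 ▸ h6)
    · rw [← hT]
      refine UpTo.le ?_ hblow
      rw [Finset.card_insert_of_notMem hu, pow_succ]
      have h8 : ((Fintype.card T - 1 : ℕ) : ℝ) ≤ ((Fintype.card U + Fintype.card W : ℕ) : ℝ) := by
        exact_mod_cast hcT
      calc ((Fintype.card T - 1 : ℕ) : ℝ) * ((((Fintype.card U + Fintype.card W : ℕ) : ℝ)) ^ S.card * a)
          ≤ ((Fintype.card U + Fintype.card W : ℕ) : ℝ) *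
            ((((Fintype.card U + Fintype.card W : ℕ) : ℝ)) ^ S.card * a) :=
            mul_le_mul_of_nonneg_right h8 hb0
        _ = _ := by ring

/-- **Homomorphic preimages.** -/
theorem main {U W : Type} [Fintype U] [Fintype W] (H : SimpleGraph U) (F : SimpleGraph W)
    (h2 : TwoConn H) (hU : 3 ≤ Fintype.card U) (φ : F →g H) :
    c F ≤ (((Fintype.card U + Fintype.card W : ℕ) : ℝ≥0∞)) ^ Fintype.card U * c H := by
  by_cases h : c H = ∞
  · have hk0 : (((Fintype.card U + Fintype.card W : ℕ) : ℝ≥0∞)) ^ Fintype.card U ≠ 0 := by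
      apply pow_ne_zero
      rw [Ne, Nat.cast_eq_zero]; omega
    rw [h, ENNReal.mul_top hk0]
    exact le_top
  · have h1 : UpTo H (c H).toReal :=
      upTo_of_c_le H _ ENNReal.toReal_nonneg (by rw [ENNReal.ofReal_toReal h])
    obtain ⟨T, instT, π, σ, g, hσ, hg, hinj, -, hup⟩ :=
      step H h2 hU (fun w => φ w) ENNReal.toReal_nonneg h1 Finset.univ
    have hcont : F.IsContained (H.comap π) := by
      refine ⟨⟨⟨g, ?_⟩, ?_⟩⟩
      · intro x y hxy
        show H.Adj (π (g x)) (π (g y))
        rw [hg x (Finset.mem_univ _), hg y (Finset.mem_univ _)]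
        exact φ.map_adj hxy
      · intro x y hxy
        exact hinj x y (Finset.mem_univ _) (Finset.mem_univ _) hxy
    have h3 := c_le_of_upTo F _ (by positivity) (UpTo.mono hcont hup)
    rw [ENNReal.ofReal_mul (by positivity), ENNReal.ofReal_toReal h, Finset.card_univ,
      ENNReal.ofReal_pow (by positivity), ENNReal.ofReal_natCast] at h3
    exact h3

/-- monotonicity -/
theorem c_mono {U W : Type} [Fintype U] [Fintype W] {F : SimpleGraph W} {H : SimpleGraph U}
    (h : F.IsContained H) : c F ≤ c H := by
  by_cases hH : c H = ∞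
  · rw [hH]; exact le_top
  · have h1 : UpTo H (c H).toReal :=
      upTo_of_c_le H _ ENNReal.toReal_nonneg (by rw [ENNReal.ofReal_toReal hH])
    have h3 := c_le_of_upTo F _ ENNReal.toReal_nonneg (UpTo.mono h h1)
    rwa [ENNReal.ofReal_toReal hH] at h3

end Pool.Agent.Q248.CH
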